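import Pool.Agent.Results.MP_90c6bd_nt.AlmostAllRationals
import Pool.Agent.H107.MetricFam

/-!
# Lang's lower bound, with the constant `1/8`, for ALL tuples of rational numbers `p`-adically near almost every point

Let `n ≥ 1`, `σ ≥ 0` and `w > 0`. (1) For every map `φ` of the `n`-tuples of rational numbers to a metric space and all
points `y` outside a set of Hausdorff dimension at most `(2 (n - 1) + n σ) / w`, ALL but finitely many of the `n`-tuples `a`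
of positive rational numbers, of height `H`, with `φ(a)` at distance at most `H ^ (-w)` from `y` satisfy Lang's inequality
for ALL nonzero integral vectors `b` with `|b_i| ≤ H ^ σ`. (2) In particular this holds for the tuples with
`|a_i - y_i|_p ≤ H ^ (-w)` for all `i`, for all `y ∈ ℚ_p ^ n` outside such a set, and (3) for those which are near `y`
for the real and for the `p`-adic absolute value, `y ∈ ℝ ^ n × ℚ_p ^ n` (where `ℝ ^ n × ℚ_p ^ n` has dimension `2 n`).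
-/

set_option autoImplicit false

open MeasureTheory Filter Topology

namespace Pool.Agent.Results.MP_90c6bd_nt.PadicNeighbourhoods

open AlmostAllRationals

/-- the height of a tuple: the largest of the heights of the entries (and `1`) -/
def ht {n : ℕ} (a : Fin n → ℚ) : ℕ := max 1 (Finset.univ.sup fun i => hgt (a i))

/-- the tuples of positive rational numbers for which the inequality with `C = 1/8` and `ε = 0` fails for some nonzero
integral vector `b` with `|b_i| ≤ H ^ σ`, `H` the height of the tuple -/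
def Fail (n : ℕ) (σ : ℝ) : Set (Fin n → ℚ) :=
  {a | (∀ i, 0 < a i) ∧ ∃ b : Fin n → ℤ, b ≠ 0 ∧ (∀ i, |(b i : ℝ)| ≤ (ht a : ℝ) ^ σ) ∧
    |Lam a b| ≤ 1 / 8 * (maxB b : ℝ) / (prodBA a b : ℝ)}

lemma rats_card (A : ℕ) : ((Rats A).ncard : ℝ) ≤ (A : ℝ) ^ 2 := by
  have hsub : Rats A ⊆ ((Finset.Icc 1 A ×ˢ Finset.Icc 1 A).image
      (fun p : ℕ × ℕ => (p.1 : ℚ) / p.2) : Finset ℚ) := by
    rintro x ⟨h1, h2⟩
    rw [Finset.mem_coe, Finset.mem_image]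
    have h3 : 0 < x.num := Rat.num_pos.2 h1
    have h4 : x.num.natAbs ≤ hgt x := le_max_left _ _
    have h5 : x.den ≤ hgt x := le_max_right _ _
    have h6 := x.den_pos
    refine ⟨(x.num.natAbs, x.den), ?_, ?_⟩
    · simp only [Finset.mem_product, Finset.mem_Icc]
      omega
    · have h7 : ((x.num.natAbs : ℕ) : ℚ) = (x.num : ℚ) := by
        rw [← Int.cast_natCast, Int.natAbs_of_nonneg h3.le]
      simp only [h7]
      exact Rat.num_div_den x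
  have h1 := Set.ncard_le_ncard hsub (Finset.finite_toSet _)
  rw [Set.ncard_coe_finset] at h1
  have h2 := h1.trans Finset.card_image_le
  rw [Finset.card_product, Nat.card_Icc, Nat.add_sub_cancel] at h2
  calc ((Rats A).ncard : ℝ) ≤ ((A * A : ℕ) : ℝ) := by exact_mod_cast h2
    _ = (A : ℝ) ^ 2 := by push_cast; ring

lemma count (n : ℕ) (hn : 1 ≤ n) (σ : ℝ) (hσ : 0 ≤ σ) (ε : ℝ) (hε : 0 < ε) : ∃ C : ℝ, ∀ X : ℝ, 1 ≤ X →
    {a | a ∈ Fail n σ ∧ ((ht a : ℕ) : ℝ) ≤ X}.Finite ∧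
      ({a | a ∈ Fail n σ ∧ ((ht a : ℕ) : ℝ) ≤ X}.ncard : ℝ) ≤ C * X ^ ((2 * ((n : ℝ) - 1) + n * σ) + ε) := by
  refine ⟨3 ^ n * (2 / ε + 1), fun X hX => ?_⟩
  have hX0 : 0 < X := by linarith
  set A : ℕ := ⌊X⌋₊ with hA
  set B : ℕ := ⌊X ^ σ⌋₊ with hB
  have hA1 : 1 ≤ A := Nat.le_floor (by exact_mod_cast hX)
  have hAX : (A : ℝ) ≤ X := Nat.floor_le hX0.le
  have hBX : (B : ℝ) ≤ X ^ σ := Nat.floor_le (Real.rpow_nonneg hX0.le _)
  have hXσ : 1 ≤ X ^ σ := Real.one_le_rpow hX hσ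
  have hsub : {a | a ∈ Fail n σ ∧ ((ht a : ℕ) : ℝ) ≤ X} ⊆ Exceptional n A B 0 := by
    rintro a ⟨⟨ha, b, hb0, hb, hL⟩, haX⟩
    have h1 : ht a ≤ A := Nat.le_floor haX
    refine ⟨fun i => ⟨ha i, ?_⟩, b, hb0, fun i => ?_, ?_⟩
    · exact (Finset.le_sup (f := fun i => hgt (a i)) (Finset.mem_univ i)).trans ((le_max_right _ _).trans h1)
    · apply Nat.le_floor
      have h2 : (((b i).natAbs : ℕ) : ℝ) = |(b i : ℝ)| := by
        rw [Nat.cast_natAbs]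
        push_cast
        rfl
      rw [h2]
      refine (hb i).trans (Real.rpow_le_rpow (Nat.cast_nonneg _) haX hσ)
    · rw [add_zero, Real.rpow_one]
      exact hL
  obtain ⟨_, hfin, hcard⟩ := AlmostAllRationals.result n A B hn 0 le_rfl
  refine ⟨hfin.subset hsub, ?_⟩
  have hlog : ((Nat.log 2 A : ℕ) : ℝ) + 1 ≤ (2 / ε + 1) * X ^ ε := by
    have h1 : ((Nat.log 2 A : ℕ) : ℝ) ≤ Real.logb 2 A := by
      have h2 := Real.natLog_le_logb A 2
      exact_mod_cast h2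
    have h3 : Real.logb 2 A ≤ 2 * Real.log X := by
      rw [Real.logb, div_le_iff₀ (Real.log_pos (by norm_num))]
      have h4 : Real.log A ≤ Real.log X := Real.log_le_log (by exact_mod_cast hA1) hAX
      have h5 : 0 ≤ Real.log X := Real.log_nonneg hX
      have h6 : (1 / 2 : ℝ) ≤ Real.log 2 := by
        have := Real.log_two_gt_d9
        linarith
      nlinarith
    have h7 : Real.log X ≤ X ^ ε / ε := Real.log_le_rpow_div hX0.le hε
    have h8 : 1 ≤ X ^ ε := Real.one_le_rpow hX hε.le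
    calc ((Nat.log 2 A : ℕ) : ℝ) + 1 ≤ 2 * (X ^ ε / ε) + X ^ ε := by linarith
      _ = (2 / ε + 1) * X ^ ε := by ring
  have h2B : (2 * (B : ℝ) + 1) ≤ 3 * X ^ σ := by linarith
  obtain ⟨m, rfl⟩ : ∃ m, n = m + 1 := ⟨n - 1, by omega⟩
  calc ({a | a ∈ Fail (m + 1) σ ∧ ((ht a : ℕ) : ℝ) ≤ X}.ncard : ℝ)
      ≤ (((2 * B + 1) ^ (m + 1) * ((Nat.log 2 A + 1) * (Rats A).ncard ^ m) : ℕ) : ℝ) := by
        exact_mod_cast (Set.ncard_le_ncard hsub hfin).trans hcard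
    _ = (2 * (B : ℝ) + 1) ^ (m + 1) * ((((Nat.log 2 A : ℕ) : ℝ) + 1) * ((Rats A).ncard : ℝ) ^ m) := by push_cast; ring
    _ ≤ (3 * X ^ σ) ^ (m + 1) * (((2 / ε + 1) * X ^ ε) * (X ^ 2) ^ m) := by
        have h3 : ((Rats A).ncard : ℝ) ≤ X ^ 2 :=
          (rats_card A).trans (pow_le_pow_left₀ (Nat.cast_nonneg _) hAX 2)
        gcongr
    _ = (3 ^ (m + 1) * (2 / ε + 1)) * X ^ ((2 * (((m + 1 : ℕ) : ℝ) - 1) + ((m + 1 : ℕ) : ℝ) * σ) + ε) := by
        rw [mul_pow, ← pow_mul, ← Real.rpow_natCast (X ^ σ) (m + 1), ← Real.rpow_mul hX0.le,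
          ← Real.rpow_natCast X (2 * m)]
        have h4 : X ^ ((2 * (((m + 1 : ℕ) : ℝ) - 1) + ((m + 1 : ℕ) : ℝ) * σ) + ε) =
            X ^ (σ * ((m + 1 : ℕ) : ℝ)) * (X ^ ε * X ^ ((2 * m : ℕ) : ℝ)) := by
          rw [← Real.rpow_add hX0, ← Real.rpow_add hX0]
          congr 1
          push_cast
          ring
        rw [h4]
        ring

/-- Lang's inequality, with the constant `1/8`, for the tuple `a` and all `ε ≥ 0`, all nonzero integral vectors `b` with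
`|b_i| ≤ H ^ σ` -/
def Lang {n : ℕ} (σ : ℝ) (a : Fin n → ℚ) : Prop :=
  ∀ b : Fin n → ℤ, b ≠ 0 → (∀ i, |(b i : ℝ)| ≤ (ht a : ℝ) ^ σ) → ∀ ε : ℝ, 0 ≤ ε →
    1 / 8 * (maxB b : ℝ) / (prodBA a b : ℝ) ^ (1 + ε) < |Lam a b|

lemma fail_of {n : ℕ} {σ : ℝ} {a : Fin n → ℚ} (ha : ∀ i, 0 < a i) (hb : ¬ Lang σ a) : a ∈ Fail n σ := by
  unfold Lang at hb
  refine ⟨ha, ?_⟩
  push Not at hb
  obtain ⟨b, hb0, hbs, ε, hε, hL⟩ := hb
  refine ⟨b, hb0, hbs, hL.trans ?_⟩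
  have hP : 1 ≤ prodBA a b := Nat.one_le_iff_ne_zero.2 (Finset.prod_pos fun i _ =>
    Nat.mul_pos (lt_of_lt_of_le one_pos (le_max_left _ _)) (pow_pos (hgt_pos _) _)).ne'
  have hP1 : (1 : ℝ) ≤ prodBA a b := by exact_mod_cast hP
  have h3 : (prodBA a b : ℝ) ≤ (prodBA a b : ℝ) ^ (1 + ε) := by
    calc (prodBA a b : ℝ) = (prodBA a b : ℝ) ^ (1 : ℝ) := (Real.rpow_one _).symm
      _ ≤ (prodBA a b : ℝ) ^ (1 + ε) := Real.rpow_le_rpow_of_exponent_le hP1 (by linarith)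
  exact div_le_div_of_nonneg_left (by positivity) (by linarith) h3

/-- any metric space -/
lemma general (n : ℕ) (hn : 1 ≤ n) (σ w : ℝ) (hσ : 0 ≤ σ) (hw : 0 < w) (M : Type) [MetricSpace M]
    (φ : (Fin n → ℚ) → M) :
    ∃ E : Set M, dimH E ≤ ENNReal.ofReal ((2 * ((n : ℝ) - 1) + n * σ) / w) ∧ ∀ y : M, y ∉ E →
      {a : Fin n → ℚ | (∀ i, 0 < a i) ∧ dist (φ a) y ≤ ((ht a : ℕ) : ℝ) ^ (-w) ∧ ¬ Lang σ a}.Finite := by
  have hn0 : (0 : ℝ) < n := by exact_mod_cast hn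
  have hn1 : (1 : ℝ) ≤ n := by exact_mod_cast hn
  have hs : 0 ≤ 2 * ((n : ℝ) - 1) + n * σ := by
    have := mul_nonneg hn0.le hσ
    linarith
  obtain ⟨E, hE1, hE2⟩ := Pool.Agent.H107.ME.dim_family φ (fun a => ((ht a : ℕ) : ℝ))
    (fun a => by exact_mod_cast le_max_left _ _) hs hw (J := Unit) (fun _ => Fail n σ)
    (fun _ ε hε => count n hn σ hσ ε hε)
  refine ⟨E, hE1, fun y hy => (hE2 y hy ()).subset ?_⟩
  rintro a ⟨ha, hd, hb⟩
  exact ⟨fail_of ha hb, hd⟩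

/-- **Theorem.** Let `n ≥ 1`, `σ ≥ 0` and `w > 0`. (1) For every metric space `M` and every map `φ` of the `n`-tuples of
rational numbers to `M` there is a set `E ⊆ M` of Hausdorff dimension at most `(2 (n - 1) + n σ) / w` such that for all
`y` outside `E`, all but finitely many of the `n`-tuples `a` of positive rational numbers with `dist(φ(a), y) ≤ H ^ (-w)`
(`H` the height of `a`) satisfy `|∑ b_j log a_j| > (1/8) B ∏ (B_j A_j ^ 2) ^ (-(1 + ε))` for ALL nonzero integral vectors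
`b` with `|b_j| ≤ H ^ σ` and all `ε ≥ 0`. (2) The same for `y ∈ ℚ_p ^ n` and the tuples with `|a_i - y_i|_p ≤ H ^ (-w)`
for all `i`. (3) The same for `(x, y) ∈ ℝ ^ n × ℚ_p ^ n` and the tuples with `|a_i - x_i| ≤ H ^ (-w)` and
`|a_i - y_i|_p ≤ H ^ (-w)` for all `i`. -/
theorem result (n : ℕ) (hn : 1 ≤ n) (σ w : ℝ) (hσ : 0 ≤ σ) (hw : 0 < w) :
    (∀ (M : Type) [MetricSpace M] (φ : (Fin n → ℚ) → M),
      ∃ E : Set M, dimH E ≤ ENNReal.ofReal ((2 * ((n : ℝ) - 1) + n * σ) / w) ∧ ∀ y : M, y ∉ E →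
        {a : Fin n → ℚ | (∀ i, 0 < a i) ∧ dist (φ a) y ≤ ((ht a : ℕ) : ℝ) ^ (-w) ∧ ¬ Lang σ a}.Finite) ∧
    (∀ (p : ℕ) [Fact p.Prime],
      ∃ E : Set (Fin n → ℚ_[p]), dimH E ≤ ENNReal.ofReal ((2 * ((n : ℝ) - 1) + n * σ) / w) ∧
        ∀ y : Fin n → ℚ_[p], y ∉ E →
        {a : Fin n → ℚ | (∀ i, 0 < a i) ∧ (∀ i, ‖(a i : ℚ_[p]) - y i‖ ≤ ((ht a : ℕ) : ℝ) ^ (-w)) ∧
          ¬ Lang σ a}.Finite) ∧
    (∀ (p : ℕ) [Fact p.Prime],
      ∃ E : Set ((Fin n → ℝ) × (Fin n → ℚ_[p])), dimH E ≤ ENNReal.ofReal ((2 * ((n : ℝ) - 1) + n * σ) / w) ∧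
        ∀ (x : Fin n → ℝ) (y : Fin n → ℚ_[p]), (x, y) ∉ E →
        {a : Fin n → ℚ | (∀ i, 0 < a i) ∧ (∀ i, |(a i : ℝ) - x i| ≤ ((ht a : ℕ) : ℝ) ^ (-w)) ∧
          (∀ i, ‖(a i : ℚ_[p]) - y i‖ ≤ ((ht a : ℕ) : ℝ) ^ (-w)) ∧ ¬ Lang σ a}.Finite) := by
  have hpos : ∀ a : Fin n → ℚ, 0 ≤ ((ht a : ℕ) : ℝ) ^ (-w) := fun a => Real.rpow_nonneg (Nat.cast_nonneg _) _
  refine ⟨fun M _ φ => general n hn σ w hσ hw M φ, fun p hp => ?_, fun p hp => ?_⟩
  · obtain ⟨E, hE1, hE2⟩ := general n hn σ w hσ hw (Fin n → ℚ_[p]) (fun a i => (a i : ℚ_[p]))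
    refine ⟨E, hE1, fun y hy => (hE2 y hy).subset ?_⟩
    rintro a ⟨ha, hd, hb⟩
    refine ⟨ha, ?_, hb⟩
    rw [dist_pi_le_iff (hpos a)]
    intro i
    rw [dist_eq_norm]
    exact hd i
  · obtain ⟨E, hE1, hE2⟩ := general n hn σ w hσ hw ((Fin n → ℝ) × (Fin n → ℚ_[p]))
      (fun a => ((fun i => (a i : ℝ)), (fun i => (a i : ℚ_[p]))))
    refine ⟨E, hE1, fun x y hy => (hE2 (x, y) hy).subset ?_⟩
    rintro a ⟨ha, hd1, hd2, hb⟩
    refine ⟨ha, ?_, hb⟩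
    rw [Prod.dist_eq]
    refine max_le ?_ ?_
    · rw [dist_pi_le_iff (hpos a)]
      intro i
      rw [Real.dist_eq]
      exact hd1 i
    · rw [dist_pi_le_iff (hpos a)]
      intro i
      rw [dist_eq_norm]
      exact hd2 i

end Pool.Agent.Results.MP_90c6bd_nt.PadicNeighbourhoods
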